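import Pool.Agent.H8.UB.Targets

/-!
# MP_404602_al, row ALE: structure constants of finite dimensional algebras
-/

open TensorProduct Module

namespace Pool.Agent.H30.UB

open Pool.Agent.H8.UB

section basis

variable {K A : Type} [Field K] [Ring A] [Algebra K A] {n : ℕ} (b : Basis (Fin n) K A)

theorem repr_mul_left (x y : A) (l : Fin n) :
    b.repr (x * y) l = ∑ j, b.repr x j * b.repr (b j * y) l := by
  have h : x * y = ∑ j, b.repr x j • (b j * y) := by
    conv_lhs => rw [← b.sum_repr x]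
    rw [Finset.sum_mul]
    exact Finset.sum_congr rfl fun j _ => smul_mul_assoc _ _ _
  rw [h, map_sum, Finsupp.finsetSum_apply]
  refine Finset.sum_congr rfl fun j _ => ?_
  rw [map_smul, Finsupp.smul_apply, smul_eq_mul]

theorem repr_mul_right (x y : A) (l : Fin n) :
    b.repr (x * y) l = ∑ j, b.repr y j * b.repr (x * b j) l := by
  have h : x * y = ∑ j, b.repr y j • (x * b j) := by
    conv_lhs => rw [← b.sum_repr y]
    rw [Finset.mul_sum]
    exact Finset.sum_congr rfl fun j _ => mul_smul_comm _ _ _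
  rw [h, map_sum, Finsupp.finsetSum_apply]
  refine Finset.sum_congr rfl fun j _ => ?_
  rw [map_smul, Finsupp.smul_apply, smul_eq_mul]

theorem repr_self' (i l : Fin n) : b.repr (b i) l = if l = i then 1 else 0 := by
  rw [b.repr_self, Finsupp.single_apply]
  by_cases h : i = l
  · rw [if_pos h, if_pos h.symm]
  · rw [if_neg h, if_neg fun h' => h h'.symm]

/-- the structure constants of an algebra with a basis -/
noncomputable def scOf : SC n K where
  c i j l := b.repr (b i * b j) l
  u l := b.repr 1 l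
  one_mul i l := by
    rw [← repr_mul_left, _root_.one_mul, repr_self']
  mul_one i l := by
    rw [← repr_mul_right, _root_.mul_one, repr_self']
  assoc i j t l := by
    rw [← repr_mul_left, ← repr_mul_right, mul_assoc]

/-- an algebra with a basis and given structure constants -/
theorem equiv_of_basis (s : SC n K) (hc : ∀ i j, b i * b j = ∑ l, s.c i j l • b l)
    (hu : (1 : A) = ∑ l, s.u l • b l) : Nonempty (A ≃ₐ[K] Al s) := by
  let e : A ≃ₗ[K] Al s := b.equivFun
  have he : ∀ x l, e x l = b.repr x l := fun x l => rfl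
  have hr : ∀ (v : Fin n → K) (l : Fin n), b.repr (∑ i, v i • b i) l = v l := by
    intro v l
    rw [b.repr_sum_self]
  refine ⟨AlgEquiv.ofLinearEquiv e (al_ext s fun l => ?_) fun x y => al_ext s fun l => ?_⟩
  · rw [he, hu, hr]
    rfl
  · rw [he, al_mul, repr_mul_left]
    refine Finset.sum_congr rfl fun i _ => ?_
    rw [repr_mul_right, Finset.mul_sum]
    refine Finset.sum_congr rfl fun j _ => ?_
    rw [he, he, hc, hr, mul_assoc]

end basis

section al

variable {n : ℕ} {K : Type} [Field K] (s : SC n K)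

/-- the standard basis -/
noncomputable def bAl : Basis (Fin n) K (Al s) := Pi.basisFun K (Fin n)

theorem bAl_apply (i l : Fin n) : bAl s i l = if l = i then 1 else 0 := by
  have h : bAl s i = (Pi.single i 1 : Fin n → K) := Pi.basisFun_apply K (Fin n) i
  rw [h, Pi.single_apply]

theorem bAl_repr (x : Al s) (l : Fin n) : (bAl s).repr x l = x l := Pi.basisFun_repr K (Fin n) x l

theorem al_eq_sum (x : Al s) : x = ∑ l, x l • bAl s l := by
  conv_lhs => rw [← (bAl s).sum_repr x]
  exact Finset.sum_congr rfl fun l _ => by rw [bAl_repr]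

theorem bAl_mul (i j l : Fin n) : (bAl s i * bAl s j) l = s.c i j l := by
  rw [al_mul, Finset.sum_eq_single i, Finset.sum_eq_single j]
  · rw [bAl_apply, bAl_apply, if_pos rfl, if_pos rfl, one_mul, one_mul]
  · intro j' _ hj
    rw [bAl_apply s j, if_neg hj, mul_zero, zero_mul]
  · exact fun h => absurd (Finset.mem_univ _) h
  · intro i' _ hi
    refine Finset.sum_eq_zero fun j' _ => ?_
    rw [bAl_apply s i, if_neg hi, zero_mul, zero_mul]
  · exact fun h => absurd (Finset.mem_univ _) h

end al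

theorem part2 (k K : Type) [Field k] [Field K] [Algebra k K] (R : Type) [Ring R] [Algebra k R]
    (n : ℕ) (s : SC n k) (e : Rᵐᵒᵖ ≃ₐ[k] Al s) :
    Nonempty ((K ⊗[k] R)ᵐᵒᵖ ≃+* Al (s.map (algebraMap k K))) := by
  let b0 : Basis (Fin n) k R :=
    (bAl s).map (e.symm.toLinearEquiv.trans (MulOpposite.opLinearEquiv k).symm)
  have h0 : ∀ i, MulOpposite.op (b0 i) = e.symm (bAl s i) := fun i => rfl
  let b1 : Basis (Fin n) K (K ⊗[k] R) := b0.baseChange K
  have h1 : ∀ i, b1 i = 1 ⊗ₜ[k] b0 i := fun i => b0.baseChange_apply K i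
  let b2 : Basis (Fin n) K (K ⊗[k] R)ᵐᵒᵖ := b1.map (MulOpposite.opLinearEquiv K)
  have h2 : ∀ i, b2 i = MulOpposite.op (b1 i) := fun i => rfl
  have hx : ∀ x : Al s, MulOpposite.op ((1 : K) ⊗ₜ[k] (e.symm x).unop) =
      ∑ l, algebraMap k K (x l) • b2 l := by
    intro x
    have h3 : (e.symm x).unop = ∑ l, x l • b0 l := by
      have h4 : e.symm x = ∑ l, x l • e.symm (bAl s l) := by
        conv_lhs => rw [al_eq_sum s x]
        rw [map_sum]
        exact Finset.sum_congr rfl fun l _ => map_smul _ _ _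
      rw [h4]
      exact map_sum (MulOpposite.opLinearEquiv k).symm _ _
    rw [h3, TensorProduct.tmul_sum]
    refine (map_sum (MulOpposite.opLinearEquiv K) _ _).trans ?_
    refine Finset.sum_congr rfl fun l _ => ?_
    have h5 : (1 : K) ⊗ₜ[k] (x l • b0 l) = algebraMap k K (x l) • ((1 : K) ⊗ₜ[k] b0 l) := by
      rw [TensorProduct.tmul_smul, algebraMap_smul]
    rw [h5, map_smul, h2, h1]
    rfl
  have hc : ∀ i j, b2 i * b2 j = ∑ l, (s.map (algebraMap k K)).c i j l • b2 l := by
    intro i j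
    have h3 : b2 i * b2 j = MulOpposite.op ((1 : K) ⊗ₜ[k] (e.symm (bAl s i * bAl s j)).unop) := by
      rw [h2, h2, h1, h1, ← MulOpposite.op_mul, Algebra.TensorProduct.tmul_mul_tmul, one_mul,
        map_mul, MulOpposite.unop_mul]
      rfl
    rw [h3, hx]
    exact Finset.sum_congr rfl fun l _ => by rw [bAl_mul]; rfl
  have hu : (1 : (K ⊗[k] R)ᵐᵒᵖ) = ∑ l, (s.map (algebraMap k K)).u l • b2 l := by
    have h3 : (1 : (K ⊗[k] R)ᵐᵒᵖ) = MulOpposite.op ((1 : K) ⊗ₜ[k] (e.symm 1).unop) := by
      rw [map_one, MulOpposite.unop_one]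
      rfl
    rw [h3, hx]
    rfl
  obtain ⟨E⟩ := equiv_of_basis b2 (s.map (algebraMap k K)) hc hu
  exact ⟨E.toRingEquiv⟩

theorem pf_ALE : T_ALE := by
  refine ⟨fun K _ R _ _ _ => ?_, fun k K _ _ _ R _ _ n s ⟨e⟩ => part2 k K R n s e⟩
  let b := Module.finBasis K R
  refine ⟨_, scOf b, equiv_of_basis b (scOf b) (fun i j => ?_) ?_⟩
  · exact (b.sum_repr (b i * b j)).symm
  · exact (b.sum_repr 1).symm

end Pool.Agent.H30.UB
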