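import Pool.Agent.H8.UB.Targets

/-!
# MP_404602_al, row ALR: descent for linear systems
-/

namespace Pool.Agent.H30.UB

open Pool.Agent.H8.UB

/-- a retraction of the extension of fields -/
theorem exists_ret (k K : Type) [Field k] [Field K] (f : k →+* K) :
    ∃ r : K →+ k, r 1 = 1 ∧ ∀ a x, r (f a * x) = a * r x := by
  let := f.toAlgebra
  have hinj : LinearMap.ker (Algebra.linearMap k K) = ⊥ := by
    rw [LinearMap.ker_eq_bot]
    exact (algebraMap k K).injective
  obtain ⟨r, hr⟩ := (Algebra.linearMap k K).exists_leftInverse_of_injective hinj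
  refine ⟨r.toAddMonoidHom, ?_, fun a x => ?_⟩
  · have h := LinearMap.congr_fun hr 1
    have h1 : (Algebra.linearMap k K) 1 = 1 := map_one (algebraMap k K)
    rw [LinearMap.comp_apply, h1] at h
    exact h
  · have h : f a * x = a • x := (Algebra.smul_def a x).symm
    change r (f a * x) = a * r x
    rw [h, map_smul, smul_eq_mul]

variable {k K : Type} [Field k] [Field K] {f : k →+* K} {n : ℕ} (s : SC n k)

/-- the retraction on the algebra -/
def RR (r : K →+ k) : Al (s.map f) →+ Al s where
  toFun x l := r (x l)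
  map_zero' := al_ext _ fun _ => map_zero r
  map_add' x y := al_ext _ fun l => map_add r (x l) (y l)

theorem RR_apply (r : K →+ k) (x : Al (s.map f)) (l : Fin n) : RR s r x l = r (x l) := rfl

theorem RR_left {r : K →+ k} (hr : ∀ a x, r (f a * x) = a * r x) (a : Al s) (x : Al (s.map f)) :
    RR s r (alMap s f a * x) = a * RR s r x := al_ext _ fun l => by
  rw [RR_apply, al_mul, al_mul, map_sum]
  refine Finset.sum_congr rfl fun i _ => ?_
  rw [map_sum]
  refine Finset.sum_congr rfl fun j _ => ?_
  have h : alMap s f a i * x j * (s.map f).c i j l = f (a i * s.c i j l) * x j := by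
    change f (a i) * x j * f (s.c i j l) = _
    rw [map_mul]
    ring
  rw [h, hr, RR_apply]
  ring

theorem RR_right {r : K →+ k} (hr : ∀ a x, r (f a * x) = a * r x) (a : Al s) (x : Al (s.map f)) :
    RR s r (x * alMap s f a) = RR s r x * a := al_ext _ fun l => by
  rw [RR_apply, al_mul, al_mul, map_sum]
  refine Finset.sum_congr rfl fun i _ => ?_
  rw [map_sum]
  refine Finset.sum_congr rfl fun j _ => ?_
  have h : x i * alMap s f a j * (s.map f).c i j l = f (a j * s.c i j l) * x i := by
    change x i * f (a j) * f (s.c i j l) = _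
    rw [map_mul]
    ring
  rw [h, hr, RR_apply]
  ring

theorem RR_map {r : K →+ k} (h1 : r 1 = 1) (hr : ∀ a x, r (f a * x) = a * r x) (a : Al s) :
    RR s r (alMap s f a) = a := al_ext _ fun l => by
  rw [RR_apply]
  have h := hr (a l) 1
  rw [mul_one, h1, mul_one] at h
  exact h

theorem pf_ALR : T_ALR := by
  intro k K _ _ f n s c d ⟨p, q, z, h1, h2⟩
  obtain ⟨r, hr1, hr⟩ := exists_ret k K f
  refine ⟨fun i => RR s r (p i), fun i t => RR s r (q i t), fun j l => RR s r (z j l), ?_, ?_⟩
  · intro j
    have h := congrArg (RR s r) (h1 j)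
    rw [map_add, map_sum, map_sum] at h
    have e1 : RR s r ((d.map (alMap s f)).a j) = d.a j := RR_map s hr1 hr _
    have e2 : ∀ i, RR s r ((d.map (alMap s f)).b j i * p i) = d.b j i * RR s r (p i) :=
      fun i => RR_left s hr _ _
    have e3 : ∀ l, RR s r (z j l * (c.map (alMap s f)).a l) = RR s r (z j l) * c.a l :=
      fun l => RR_right s hr _ _
    rw [e1, Finset.sum_congr rfl fun i _ => e2 i, Finset.sum_congr rfl fun l _ => e3 l] at h
    exact h
  · intro j t
    have h := congrArg (RR s r) (h2 j t)
    rw [map_sum, map_sum] at h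
    have e2 : ∀ i, RR s r ((d.map (alMap s f)).b j i * q i t) = d.b j i * RR s r (q i t) :=
      fun i => RR_left s hr _ _
    have e3 : ∀ l, RR s r (z j l * (c.map (alMap s f)).b l t) = RR s r (z j l) * c.b l t :=
      fun l => RR_right s hr _ _
    rw [Finset.sum_congr rfl fun i _ => e2 i, Finset.sum_congr rfl fun l _ => e3 l] at h
    exact h

end Pool.Agent.H30.UB
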