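import Pool.Agent.H8.UB.Targets

/-!
# MP_404602_al, row CDL: meets and joins of formulas
-/

open CategoryTheory

namespace Pool.Agent.H30.UB

open Pool.Agent.H8.UB Pool.Agent.H56.UDs

section

variable {S : Type} [Ring S] {M : Type} [AddCommGroup M] [Module S M]

theorem app_l {m n : ℕ} {α : Type} (a : Fin m → α) (b : Fin n → α) (i : Fin m) :
    Fin.append a b (Fin.castAdd n i) = a i := Fin.append_left a b i

theorem app_r {m n : ℕ} {α : Type} (a : Fin m → α) (b : Fin n → α) (i : Fin n) :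
    Fin.append a b (Fin.natAdd m i) = b i := Fin.append_right a b i

theorem sum2 {m n : ℕ} (f : Fin (m + n) → M) :
    ∑ i, f i = ∑ i : Fin m, f (Fin.castAdd n i) + ∑ i : Fin n, f (Fin.natAdd m i) :=
  Fin.sum_univ_add f

theorem sum_inf (c d : Cd S) (f : Fin (c.inf d).n → M) :
    ∑ i, f i = ∑ i : Fin c.n, f (Fin.castAdd d.n i) + ∑ i : Fin d.n, f (Fin.natAdd c.n i) :=
  sum2 f

theorem sum_sup (c d : Cd S) (f : Fin (c.sup d).n → M) :
    ∑ i, f i = (f (Fin.castAdd d.n (Fin.castAdd c.n 0)) +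
      ∑ i : Fin c.n, f (Fin.castAdd d.n (Fin.natAdd 1 i))) +
      ∑ i : Fin d.n, f (Fin.natAdd (1 + c.n) i) := by
  refine (sum2 (m := 1 + c.n) (n := d.n) f).trans ?_
  congr 1
  refine (sum2 (m := 1) (n := c.n) _).trans ?_
  congr 1
  exact Fin.sum_univ_one _

section inf

variable (c d : Cd S)

theorem inf_a_l (j : Fin c.m) : (c.inf d).a (Fin.castAdd d.m j) = c.a j := app_l _ _ j
theorem inf_a_r (j : Fin d.m) : (c.inf d).a (Fin.natAdd c.m j) = d.a j := app_r _ _ j

theorem inf_b_ll (j : Fin c.m) (i : Fin c.n) :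
    (c.inf d).b (Fin.castAdd d.m j) (Fin.castAdd d.n i) = c.b j i := by
  change Fin.append _ _ (Fin.castAdd d.n i) = _
  rw [app_l, Fin.addCases_left]

theorem inf_b_lr (j : Fin c.m) (i : Fin d.n) :
    (c.inf d).b (Fin.castAdd d.m j) (Fin.natAdd c.n i) = 0 := by
  change Fin.append _ _ (Fin.natAdd c.n i) = _
  rw [app_r, Fin.addCases_left]
  rfl

theorem inf_b_rl (j : Fin d.m) (i : Fin c.n) :
    (c.inf d).b (Fin.natAdd c.m j) (Fin.castAdd d.n i) = 0 := by
  change Fin.append _ _ (Fin.castAdd d.n i) = _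
  rw [app_l, Fin.addCases_right]
  rfl

theorem inf_b_rr (j : Fin d.m) (i : Fin d.n) :
    (c.inf d).b (Fin.natAdd c.m j) (Fin.natAdd c.n i) = d.b j i := by
  change Fin.append _ _ (Fin.natAdd c.n i) = _
  rw [app_r, Fin.addCases_right]

theorem eq_inf_l (x : M) (y : Fin (c.inf d).n → M) (j : Fin c.m) :
    (c.inf d).a (Fin.castAdd d.m j) • x + ∑ i, (c.inf d).b (Fin.castAdd d.m j) i • y i =
      c.a j • x + ∑ i : Fin c.n, c.b j i • y (Fin.castAdd d.n i) := by
  rw [sum_inf, inf_a_l, Finset.sum_congr rfl fun i _ => by rw [inf_b_ll],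
    Finset.sum_congr (s₁ := (Finset.univ : Finset (Fin d.n))) rfl fun i _ => by
      rw [inf_b_lr, zero_smul], Finset.sum_const_zero, add_zero]

theorem eq_inf_r (x : M) (y : Fin (c.inf d).n → M) (j : Fin d.m) :
    (c.inf d).a (Fin.natAdd c.m j) • x + ∑ i, (c.inf d).b (Fin.natAdd c.m j) i • y i =
      d.a j • x + ∑ i : Fin d.n, d.b j i • y (Fin.natAdd c.n i) := by
  rw [sum_inf, inf_a_r, Finset.sum_congr (s₁ := (Finset.univ : Finset (Fin c.n))) rfl fun i _ => by
      rw [inf_b_rl, zero_smul], Finset.sum_const_zero, zero_add,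
    Finset.sum_congr (s₁ := (Finset.univ : Finset (Fin d.n))) rfl fun i _ => by rw [inf_b_rr]]

theorem forall_inf (P : Fin (c.inf d).m → Prop) :
    (∀ j, P j) ↔ (∀ j : Fin c.m, P (Fin.castAdd d.m j)) ∧ ∀ j : Fin d.m, P (Fin.natAdd c.m j) :=
  ⟨fun h => ⟨fun _ => h _, fun _ => h _⟩, fun h j =>
    Fin.addCases (motive := P) h.1 h.2 j⟩

end inf

theorem sat_inf (c d : Cd S) (x : M) : (c.inf d).Sat M x ↔ c.Sat M x ∧ d.Sat M x := by
  constructor
  · rintro ⟨y, hy⟩
    exact ⟨⟨fun i => y (Fin.castAdd d.n i), fun j => (eq_inf_l c d x y j).symm.trans (hy _)⟩,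
      ⟨fun i => y (Fin.natAdd c.n i), fun j => (eq_inf_r c d x y j).symm.trans (hy _)⟩⟩
  · rintro ⟨⟨y, hy⟩, ⟨y', hy'⟩⟩
    refine ⟨Fin.append y y', (forall_inf c d _).mpr ⟨fun j => ?_, fun j => ?_⟩⟩
    · refine (eq_inf_l c d x _ j).trans ?_
      rw [Finset.sum_congr rfl fun i _ => by rw [app_l]]
      exact hy j
    · refine (eq_inf_r c d x _ j).trans ?_
      rw [Finset.sum_congr rfl fun i _ => by rw [app_r]]
      exact hy' j

section sup

variable (c d : Cd S)

theorem sup_a_l (j : Fin c.m) : (c.sup d).a (Fin.castAdd d.m j) = 0 :=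
  app_l (fun _ => (0 : S)) d.a j
theorem sup_a_r (j : Fin d.m) : (c.sup d).a (Fin.natAdd c.m j) = d.a j :=
  app_r (fun _ => (0 : S)) d.a j

theorem sup_b_lz (j : Fin c.m) :
    (c.sup d).b (Fin.castAdd d.m j) (Fin.castAdd d.n (Fin.castAdd c.n 0)) = c.a j := by
  change Fin.append (Fin.append _ _) _ (Fin.castAdd d.n (Fin.castAdd c.n 0)) = _
  rw [app_l, app_l, Fin.addCases_left]

theorem sup_b_ll (j : Fin c.m) (i : Fin c.n) :
    (c.sup d).b (Fin.castAdd d.m j) (Fin.castAdd d.n (Fin.natAdd 1 i)) = c.b j i := by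
  change Fin.append (Fin.append _ _) _ (Fin.castAdd d.n (Fin.natAdd 1 i)) = _
  rw [app_l, app_r, Fin.addCases_left]

theorem sup_b_lr (j : Fin c.m) (i : Fin d.n) :
    (c.sup d).b (Fin.castAdd d.m j) (Fin.natAdd (1 + c.n) i) = 0 := by
  change Fin.append (Fin.append _ _) _ (Fin.natAdd (1 + c.n) i) = _
  rw [app_r, Fin.addCases_left]
  rfl

theorem sup_b_rz (j : Fin d.m) :
    (c.sup d).b (Fin.natAdd c.m j) (Fin.castAdd d.n (Fin.castAdd c.n 0)) = -d.a j := by
  change Fin.append (Fin.append _ _) _ (Fin.castAdd d.n (Fin.castAdd c.n 0)) = _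
  rw [app_l, app_l, Fin.addCases_right]

theorem sup_b_rl (j : Fin d.m) (i : Fin c.n) :
    (c.sup d).b (Fin.natAdd c.m j) (Fin.castAdd d.n (Fin.natAdd 1 i)) = 0 := by
  change Fin.append (Fin.append _ _) _ (Fin.castAdd d.n (Fin.natAdd 1 i)) = _
  rw [app_l, app_r, Fin.addCases_right]
  rfl

theorem sup_b_rr (j : Fin d.m) (i : Fin d.n) :
    (c.sup d).b (Fin.natAdd c.m j) (Fin.natAdd (1 + c.n) i) = d.b j i := by
  change Fin.append (Fin.append _ _) _ (Fin.natAdd (1 + c.n) i) = _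
  rw [app_r, Fin.addCases_right]

theorem eq_sup_l (x : M) (y : Fin (c.sup d).n → M) (j : Fin c.m) :
    (c.sup d).a (Fin.castAdd d.m j) • x + ∑ i, (c.sup d).b (Fin.castAdd d.m j) i • y i =
      c.a j • y (Fin.castAdd d.n (Fin.castAdd c.n 0)) +
        ∑ i : Fin c.n, c.b j i • y (Fin.castAdd d.n (Fin.natAdd 1 i)) := by
  rw [sum_sup, sup_a_l, zero_smul, zero_add, sup_b_lz,
    Finset.sum_congr (s₁ := (Finset.univ : Finset (Fin c.n))) rfl fun i _ => by rw [sup_b_ll],
    Finset.sum_congr (s₁ := (Finset.univ : Finset (Fin d.n))) rfl fun i _ => by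
      rw [sup_b_lr, zero_smul], Finset.sum_const_zero, add_zero]

theorem eq_sup_r (x : M) (y : Fin (c.sup d).n → M) (j : Fin d.m) :
    (c.sup d).a (Fin.natAdd c.m j) • x + ∑ i, (c.sup d).b (Fin.natAdd c.m j) i • y i =
      d.a j • (x - y (Fin.castAdd d.n (Fin.castAdd c.n 0))) +
        ∑ i : Fin d.n, d.b j i • y (Fin.natAdd (1 + c.n) i) := by
  rw [sum_sup, sup_a_r, sup_b_rz,
    Finset.sum_congr (s₁ := (Finset.univ : Finset (Fin c.n))) rfl fun i _ => by
      rw [sup_b_rl, zero_smul], Finset.sum_const_zero, add_zero,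
    Finset.sum_congr (s₁ := (Finset.univ : Finset (Fin d.n))) rfl fun i _ => by rw [sup_b_rr],
    smul_sub, neg_smul, sub_eq_add_neg, add_assoc]

theorem forall_sup (P : Fin (c.sup d).m → Prop) :
    (∀ j, P j) ↔ (∀ j : Fin c.m, P (Fin.castAdd d.m j)) ∧ ∀ j : Fin d.m, P (Fin.natAdd c.m j) :=
  ⟨fun h => ⟨fun _ => h _, fun _ => h _⟩, fun h j =>
    Fin.addCases (motive := P) h.1 h.2 j⟩

end sup

theorem sat_sup (c d : Cd S) (x : M) :
    (c.sup d).Sat M x ↔ ∃ z : M, c.Sat M z ∧ d.Sat M (x - z) := by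
  constructor
  · rintro ⟨y, hy⟩
    exact ⟨y (Fin.castAdd d.n (Fin.castAdd c.n 0)),
      ⟨fun i => y (Fin.castAdd d.n (Fin.natAdd 1 i)), fun j =>
        (eq_sup_l c d x y j).symm.trans (hy _)⟩,
      ⟨fun i => y (Fin.natAdd (1 + c.n) i), fun j => (eq_sup_r c d x y j).symm.trans (hy _)⟩⟩
  · rintro ⟨z, ⟨y, hy⟩, ⟨y', hy'⟩⟩
    refine ⟨Fin.append (Fin.append (fun _ => z) y) y',
      (forall_sup c d _).mpr ⟨fun j => ?_, fun j => ?_⟩⟩
    · refine (eq_sup_l c d x _ j).trans ?_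
      rw [app_l, app_l, Finset.sum_congr rfl fun i _ => by rw [app_l, app_r]]
      exact hy j
    · refine (eq_sup_r c d x _ j).trans ?_
      rw [app_l, app_l, Finset.sum_congr rfl fun i _ => by rw [app_r]]
      exact hy' j

end

theorem fn_le {S : Type} [Ring S] {A B : Sub (UF S)}
    (h : ∀ (M : FGModuleCat.{0} S) (x : M), x ∈ A.car M → x ∈ B.car M) : A ≤ B :=
  fun M x hx => h M x hx

theorem mem_fn {S : Type} [Ring S] (c : Cd S) (M : FGModuleCat.{0} S) (x : M) :
    x ∈ c.fn.car M ↔ c.Sat M x := Iff.rfl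

theorem fn_inf {S : Type} [Ring S] (c d : Cd S) : (c.inf d).fn = c.fn ⊓ d.fn :=
  le_antisymm (fn_le fun _ x hx => Sub.mem_inf.mpr ((sat_inf c d x).mp hx))
    (fn_le fun _ x hx => (sat_inf c d x).mpr (Sub.mem_inf.mp hx))

theorem fn_sup {S : Type} [Ring S] (c d : Cd S) : (c.sup d).fn = c.fn ⊔ d.fn := by
  refine le_antisymm (fn_le fun M x hx => Sub.mem_sup.mpr ?_) (fn_le fun M x hx => ?_)
  · obtain ⟨z, hz, hz'⟩ := (sat_sup c d x).mp hx
    exact ⟨z, hz, x - z, hz', add_sub_cancel z x⟩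
  · obtain ⟨z, hz, w, hw, hzw⟩ := Sub.mem_sup.mp hx
    have h : (x : M) - (show M from z) = w := sub_eq_of_eq_add' hzw.symm
    exact (sat_sup c d x).mpr ⟨z, hz, h ▸ hw⟩

theorem fn_bot {S : Type} [Ring S] : (Cd.bot S).fn = ⊥ := by
  refine le_antisymm (fn_le fun M x hx => ?_) bot_le
  obtain ⟨y, hy⟩ := hx
  have h := hy (0 : Fin 1)
  have e : ∑ i : Fin 0, (Cd.bot S).b (0 : Fin 1) i • y i = 0 :=
    Finset.sum_of_isEmpty (ι := Fin 0) _
  have h' : (1 : S) • (x : M) + 0 = 0 := (congrArg (fun t => (1 : S) • (x : M) + t) e).symm.trans h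
  rw [add_zero, one_smul] at h'
  exact Sub.mem_bot.mpr h'

theorem fn_top {S : Type} [Ring S] : (Cd.top S).fn = ⊤ :=
  le_antisymm le_top (fn_le fun _ _ _ => ⟨fun i => i.elim0, fun j => j.elim0⟩)

theorem cd_ext {S : Type} {n m : ℕ} {a a' : Fin m → S} {b b' : Fin m → Fin n → S}
    (h : ∀ j, a j = a' j) (h' : ∀ j i, b j i = b' j i) : (⟨n, m, a, b⟩ : Cd S) = ⟨n, m, a', b'⟩ := by
  obtain rfl : a = a' := funext h
  obtain rfl : b = b' := funext fun j => funext fun i => h' j i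
  rfl

theorem map_inf {S T : Type} [Ring S] [Ring T] (f : S →+* T) (c d : Cd S) :
    (c.inf d).map f = (c.map f).inf (d.map f) := by
  refine cd_ext (fun j => ?_) fun j i => ?_
  · refine Fin.addCases (fun j => ?_) (fun j => ?_) j
    · exact (congrArg f (inf_a_l c d j)).trans (inf_a_l (c.map f) (d.map f) j).symm
    · exact (congrArg f (inf_a_r c d j)).trans (inf_a_r (c.map f) (d.map f) j).symm
  · refine Fin.addCases (fun j => ?_) (fun j => ?_) j <;>
      refine Fin.addCases (fun i => ?_) (fun i => ?_) i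
    · exact (congrArg f (inf_b_ll c d j i)).trans (inf_b_ll (c.map f) (d.map f) j i).symm
    · exact (congrArg f (inf_b_lr c d j i)).trans ((map_zero f).trans
        (inf_b_lr (c.map f) (d.map f) j i).symm)
    · exact (congrArg f (inf_b_rl c d j i)).trans ((map_zero f).trans
        (inf_b_rl (c.map f) (d.map f) j i).symm)
    · exact (congrArg f (inf_b_rr c d j i)).trans (inf_b_rr (c.map f) (d.map f) j i).symm

theorem map_sup {S T : Type} [Ring S] [Ring T] (f : S →+* T) (c d : Cd S) :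
    (c.sup d).map f = (c.map f).sup (d.map f) := by
  refine cd_ext (fun j => ?_) fun j i => ?_
  · refine Fin.addCases (fun j => ?_) (fun j => ?_) j
    · exact (congrArg f (sup_a_l c d j)).trans ((map_zero f).trans
        (sup_a_l (c.map f) (d.map f) j).symm)
    · exact (congrArg f (sup_a_r c d j)).trans (sup_a_r (c.map f) (d.map f) j).symm
  · refine Fin.addCases (fun j => ?_) (fun j => ?_) j
    · refine Fin.addCases (fun i => ?_) (fun i => ?_) i
      · refine Fin.addCases (fun i => ?_) (fun i => ?_) i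
        · obtain rfl : i = 0 := Subsingleton.elim _ _
          exact (congrArg f (sup_b_lz c d j)).trans (sup_b_lz (c.map f) (d.map f) j).symm
        · exact (congrArg f (sup_b_ll c d j i)).trans (sup_b_ll (c.map f) (d.map f) j i).symm
      · exact (congrArg f (sup_b_lr c d j i)).trans ((map_zero f).trans
          (sup_b_lr (c.map f) (d.map f) j i).symm)
    · refine Fin.addCases (fun i => ?_) (fun i => ?_) i
      · refine Fin.addCases (fun i => ?_) (fun i => ?_) i
        · obtain rfl : i = 0 := Subsingleton.elim _ _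
          exact (congrArg f (sup_b_rz c d j)).trans ((map_neg f _).trans
            (sup_b_rz (c.map f) (d.map f) j).symm)
        · exact (congrArg f (sup_b_rl c d j i)).trans ((map_zero f).trans
            (sup_b_rl (c.map f) (d.map f) j i).symm)
      · exact (congrArg f (sup_b_rr c d j i)).trans (sup_b_rr (c.map f) (d.map f) j i).symm

theorem map_bot {S T : Type} [Ring S] [Ring T] (f : S →+* T) : (Cd.bot S).map f = Cd.bot T :=
  cd_ext (fun _ => map_one f) fun _ i => i.elim0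

theorem map_top {S T : Type} [Ring S] [Ring T] (f : S →+* T) : (Cd.top S).map f = Cd.top T :=
  cd_ext (fun j => j.elim0) fun j => j.elim0

theorem pf_CDL : T_CDL := fun _ _ => ⟨fn_inf, fn_sup, fn_bot, fn_top, fun _ _ f =>
  ⟨map_inf f, map_sup f, map_bot f, map_top f⟩⟩

end Pool.Agent.H30.UB
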